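import Pool.Agent.Y245.SC.Stm4

/-! Project ES (helper245), job ES-MER: meromorphic functions in the plane. -/

set_option autoImplicit false

open Complex MeasureTheory Metric Set Filter Topology ComplexConjugate

namespace Pool.Agent.Y287.ES

open Pool.Agent.Y245.SC



theorem mer : S_MER := by
  intro φ r hr hφ hmer
  have hM : MeromorphicOn φ univ := fun z _ => hmer z
  obtain ⟨N, hN⟩ : ∃ N, N = toMeromorphicNFOn φ univ := ⟨_, rfl⟩
  have hNF : ∀ z, MeromorphicNFAt N z := fun z => by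
    rw [hN]
    exact meromorphicNFOn_toMeromorphicNFOn φ univ (mem_univ z)
  have hne : ∀ z, φ =ᶠ[𝓝[≠] z] N := fun z => by
    rw [hN]
    exact (hM.toMeromorphicNFOn_eq_self_on_nhdsNE (mem_univ z)).symm
  have hball : ∀ z ∈ ball (0 : ℂ) r, φ =ᶠ[𝓝 z] N := by
    intro z hz
    have h1 : AnalyticAt ℂ φ z := hφ.analyticAt (isOpen_ball.mem_nhds hz)
    exact (h1.meromorphicNFAt.eventuallyEq_nhdsNE_iff_eventuallyEq_nhds (hNF z)).1 (hne z)
  have hbA : ∀ z ∈ ball (0 : ℂ) r, AnalyticAt ℂ N z := by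
    intro z hz
    have h1 : AnalyticAt ℂ φ z := hφ.analyticAt (isOpen_ball.mem_nhds hz)
    exact h1.congr (hball z hz)
  have hEq : EqOn N φ (ball 0 r) := fun z hz => (hball z hz).self_of_nhds.symm
  by_cases hZ : ∀ z, AnalyticAt ℂ N z
  · exact Or.inl ⟨N, fun z => (hZ z).differentiableAt, hEq⟩
  · right
    push Not at hZ
    obtain ⟨z0, hz0⟩ := hZ
    have hcl : IsClosed {z | ¬ AnalyticAt ℂ N z} := (isOpen_analyticAt ℂ N).isClosed_compl
    obtain ⟨w1, hw1, hinf⟩ := hcl.exists_infDist_eq_dist ⟨z0, hz0⟩ 0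
    have hmin : ∀ z, ¬ AnalyticAt ℂ N z → ‖w1‖ ≤ ‖z‖ := by
      intro z hz
      have h1 : infDist 0 {z | ¬ AnalyticAt ℂ N z} ≤ dist 0 z := infDist_le_dist_of_mem hz
      rwa [hinf, dist_zero_left, dist_zero_left] at h1
    have hrw : r ≤ ‖w1‖ := by
      by_contra h
      rw [not_le] at h
      exact hw1 (hbA w1 (mem_ball_zero_iff.2 h))
    have hord : meromorphicOrderAt N w1 < 0 := by
      by_contra h
      rw [not_lt] at h
      exact hw1 ((hNF w1).meromorphicOrderAt_nonneg_iff_analyticAt.1 h)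
    have hnt : meromorphicOrderAt N w1 ≠ ⊤ := (lt_of_lt_of_le hord le_top).ne
    obtain ⟨n, hn⟩ : ∃ n : ℤ, meromorphicOrderAt N w1 = n := by
      obtain ⟨n, hn⟩ := WithTop.ne_top_iff_exists.1 hnt
      exact ⟨n, hn.symm⟩
    have hn0 : n < 0 := by
      rw [hn] at hord
      exact_mod_cast hord
    obtain ⟨E, hE, hE0, hev⟩ := (meromorphicOrderAt_eq_int_iff (hNF w1).meromorphicAt).1 hn
    have hEev : ∀ᶠ z in 𝓝 w1, AnalyticAt ℂ E z := hE.eventually_analyticAt
    rw [eventually_nhdsWithin_iff] at hev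
    obtain ⟨ε, hε, hball2⟩ := Metric.eventually_nhds_iff_ball.1 (hev.and hEev)
    refine ⟨‖w1‖, N, w1, n.natAbs, ε, E, hrw, ?_, hEq, rfl, by omega, hε, ?_, hE0, ?_⟩
    · intro z hz
      have h1 : AnalyticAt ℂ N z := by
        by_contra h
        have h2 := hmin z h
        rw [mem_ball_zero_iff] at hz
        linarith
      exact h1.differentiableAt.differentiableWithinAt
    · intro z hz
      exact (hball2 z hz).2.differentiableAt.differentiableWithinAt
    · intro w hw hwR
      have hww : w ≠ w1 := by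
        rintro rfl
        exact lt_irrefl _ hwR
      have h1 := (hball2 w hw).1 hww
      rw [h1, smul_eq_mul, mul_comm, div_eq_mul_inv]
      congr 1
      have h2 : n = -(n.natAbs : ℤ) := by omega
      have h3 : (w - w1) ^ n = (w - w1) ^ (-(n.natAbs : ℤ)) := by rw [← h2]
      rw [h3, zpow_neg, zpow_natCast]

end Pool.Agent.Y287.ES
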