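import Pool.Agent.Y245.SC.Stm4

/-! Project ES (helper245), job ES-PH: choice of the phase. -/

set_option autoImplicit false

open Complex MeasureTheory Metric Set Filter Topology ComplexConjugate

namespace Pool.Agent.Y287.ES

open Pool.Agent.Y245.SC

lemma large (s L' C2 : ℝ) (hs : 0 < s) : ∃ N1 : ℕ, 1 ≤ N1 ∧ 1 / (N1 : ℝ) < s ∧
    ∀ N : ℕ, N1 ≤ N → 24 ≤ (N : ℝ) ^ (7 / 16 : ℝ) ∧ L' / N ≤ 1 / 2 ∧
      C2 * (N : ℝ) ^ (-(3 / 16 : ℝ)) ≤ 1 := by
  have h1 : ∀ᶠ N : ℕ in atTop, 24 ≤ (N : ℝ) ^ (7 / 16 : ℝ) :=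
    ((tendsto_rpow_atTop (by norm_num : (0 : ℝ) < 7 / 16)).comp
      tendsto_natCast_atTop_atTop).eventually (eventually_ge_atTop 24)
  have h2 : ∀ᶠ N : ℕ in atTop, L' / (N : ℝ) ≤ 1 / 2 :=
    (tendsto_const_div_atTop_nhds_zero_nat L').eventually (eventually_le_nhds (by norm_num))
  have h3 : ∀ᶠ N : ℕ in atTop, C2 * (N : ℝ) ^ (-(3 / 16 : ℝ)) ≤ 1 := by
    have h := ((tendsto_rpow_neg_atTop (by norm_num : (0 : ℝ) < 3 / 16)).comp
      tendsto_natCast_atTop_atTop).const_mul C2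
    rw [mul_zero] at h
    exact h.eventually (eventually_le_nhds (by norm_num))
  have h4 : ∀ᶠ N : ℕ in atTop, 1 / (N : ℝ) < s :=
    (tendsto_const_div_atTop_nhds_zero_nat 1).eventually (eventually_lt_nhds hs)
  have h5 : ∀ᶠ N : ℕ in atTop, 1 ≤ N := eventually_ge_atTop 1
  obtain ⟨N1, hN1⟩ := eventually_atTop.1 ((h1.and (h2.and h3)).and (h4.and h5))
  exact ⟨N1, (hN1 N1 le_rfl).2.2, (hN1 N1 le_rfl).2.1, fun N hN => (hN1 N hN).1⟩

lemma rp {n : ℝ} (hn : 1 ≤ n) : n ^ (-(9 / 16 : ℝ)) * n = n ^ (7 / 16 : ℝ) ∧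
    n ^ (7 / 16 : ℝ) * (n ^ (-(1 / 4 : ℝ)) * n ^ (-(3 / 16 : ℝ))) = 1 ∧ n ^ (7 / 16 : ℝ) ≤ n ∧
    n ^ (-(1 / 4 : ℝ)) ≤ 1 := by
  have h0 : 0 < n := by linarith
  refine ⟨?_, ?_, ?_, ?_⟩
  · have h1 : n ^ (-(9 / 16 : ℝ)) * n = n ^ (-(9 / 16 : ℝ)) * n ^ (1 : ℝ) := by rw [Real.rpow_one]
    rw [h1, ← Real.rpow_add h0]
    norm_num
  · rw [← Real.rpow_add h0, ← Real.rpow_add h0]
    norm_num
  · calc n ^ (7 / 16 : ℝ) ≤ n ^ (1 : ℝ) := Real.rpow_le_rpow_of_exponent_le hn (by norm_num)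
      _ = n := Real.rpow_one n
  · exact Real.rpow_le_one_of_one_le_of_nonpos hn (by norm_num)

/-- the numerical inequality -/
lemma numer {n t v u C3 : ℝ} (hn : 1 ≤ n) (ht : 0 < t) (htn : t ≤ n) (hv0 : 0 < v) (hv : v ≤ 1)
    (hu : 0 < u) (h : t * (v * u) = 1) (hC : (C3 + 2 * Real.pi) * u ≤ 1) :
    Real.pi + C3 / t ≤ (n - 1) * (Real.pi / n * (1 + v)) := by
  have h0 : 0 < n := by linarith
  have hpi := Real.pi_pos
  have hpi1 : 1 ≤ Real.pi := by linarith [Real.pi_gt_three]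
  have h1 : 1 / t = v * u := by
    rw [div_eq_iff ht.ne']
    linarith
  have h2 : 1 / n ≤ v * u := by
    rw [← h1]
    exact one_div_le_one_div_of_le ht htn
  have h3 : C3 / t = C3 * (v * u) := by
    rw [← h1]
    ring
  have h4 : (n - 1) * (Real.pi / n * (1 + v)) = Real.pi * (1 + v) - Real.pi * (1 + v) * (1 / n) := by
    field_simp
  rw [h3, h4]
  have h5 : Real.pi * (1 + v) * (1 / n) ≤ Real.pi * 2 * (v * u) := by
    have h6 : Real.pi * (1 + v) ≤ Real.pi * 2 := by nlinarith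
    exact mul_le_mul h6 h2 (by positivity) (by positivity)
  have h7 : v * ((C3 + 2 * Real.pi) * u) ≤ v * 1 := mul_le_mul_of_nonneg_left hC hv0.le
  nlinarith

lemma log_bd {q : ℂ} {e : ℝ} (h : ‖q - 1‖ ≤ e) (he : e ≤ 1 / 2) :
    q ∈ slitPlane ∧ |(log q).im| ≤ 3 / 2 * e := by
  have h1 : 1 + (q - 1) = q := by ring
  constructor
  · have h2 := mem_slitPlane_of_norm_lt_one (z := q - 1) (by linarith)
    rwa [h1] at h2
  · have h2 := norm_log_one_add_half_le_self (z := q - 1) (by linarith)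
    rw [h1] at h2
    exact (abs_im_le_norm _).trans (h2.trans (by linarith))

lemma alg {a X0 X1 D0 D1 F e1 e2 Z : ℂ} (hX0 : X0 ≠ 0) (hD0 : D0 ≠ 0) (he1 : e1 ≠ 0)
    (hZ : Z ≠ 0) : -(a * X1 * (F * (e2 * e1)) * D1 / (Z * e1)) =
      -(a * X0 * F * D0 / Z) * (X1 / X0) * (D1 / D0) * e2 := by
  field_simp

theorem ph : S_PH := by
  intro c ρ a x hρ ha hx hxc
  -- the constants of `x`
  have hdx : DifferentiableOn ℂ (deriv x) (ball c ρ) := hx.deriv isOpen_ball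
  have hcd : ContDiffAt ℂ 1 (deriv x) c :=
    (hdx.contDiffOn isOpen_ball).contDiffAt (ball_mem_nhds c hρ)
  obtain ⟨L, T, hT, hL⟩ := hcd.exists_lipschitzOnWith
  obtain ⟨b, hb⟩ : ∃ b, b = ‖deriv x c‖ / 2 := ⟨_, rfl⟩
  have hb0 : 0 < b := by
    rw [hb]
    have := norm_pos_iff.2 hxc
    linarith
  have hev : ∀ᶠ z in 𝓝 c, b ≤ ‖deriv x z‖ := by
    have h1 : Tendsto (fun z => ‖deriv x z‖) (𝓝 c) (𝓝 ‖deriv x c‖) :=
      hcd.continuousAt.norm
    refine h1.eventually (eventually_ge_nhds ?_)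
    rw [hb]
    have := norm_pos_iff.2 hxc
    linarith
  obtain ⟨s, hs, hsb⟩ := Metric.eventually_nhds_iff_ball.1
    ((hev.and hT).and (ball_mem_nhds c hρ))
  obtain ⟨N1, hN11, hN1s, hN1⟩ := large s (7 * ((L : ℝ) / b))
    (21 / 2 * ((L : ℝ) / b) + 39 + 2 * Real.pi) hs
  refine ⟨N1, ?_⟩
  intro f N r ζm H hN hr ⟨hr0, hζ, hf0, _, hH, hH0, hHb, hfe⟩
  obtain ⟨k1, k2, k3⟩ := hN1 N hN
  obtain ⟨n, hnN⟩ : ∃ n : ℝ, n = N := ⟨_, rfl⟩
  have hn : 1 ≤ n := by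
    rw [hnN]
    exact_mod_cast hN11.trans hN
  have hn0 : 0 < n := by linarith
  obtain ⟨p1, p2, p3, p4⟩ := rp hn
  have hv0 : 0 < n ^ (-(1 / 4 : ℝ)) := Real.rpow_pos_of_pos hn0 _
  have hu0 : 0 < n ^ (-(3 / 16 : ℝ)) := Real.rpow_pos_of_pos hn0 _
  have hδ0 : 0 < n ^ (-(9 / 16 : ℝ)) := Real.rpow_pos_of_pos hn0 _
  rw [← hnN] at k1 k2 k3 hH hHb hfe ⊢
  obtain ⟨t, ht⟩ : ∃ t, t = n ^ (7 / 16 : ℝ) := ⟨_, rfl⟩
  obtain ⟨v, hv⟩ : ∃ v, v = n ^ (-(1 / 4 : ℝ)) := ⟨_, rfl⟩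
  obtain ⟨u, hu⟩ : ∃ u, u = n ^ (-(3 / 16 : ℝ)) := ⟨_, rfl⟩
  obtain ⟨δ, hδ⟩ : ∃ δ, δ = n ^ (-(9 / 16 : ℝ)) := ⟨_, rfl⟩
  rw [← ht] at k1 p1 p2 p3
  rw [← hv] at p2 p4 hv0 ⊢
  rw [← hu] at p2 k3 hu0
  rw [← hδ] at p1 hδ0 hH hHb hfe
  have ht0 : 0 < t := by linarith
  have hLb : 0 ≤ (L : ℝ) / b := div_nonneg L.2 hb0.le
  obtain ⟨η1, hη1⟩ : ∃ η1, η1 = Real.pi / n * (1 + v) := ⟨_, rfl⟩
  rw [← hη1]
  have hpi := Real.pi_pos
  have hη10 : 0 ≤ η1 := by
    rw [hη1]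
    positivity
  have hη17 : η1 ≤ 7 / n := by
    rw [hη1, div_mul_eq_mul_div]
    refine div_le_div_of_nonneg_right ?_ hn0.le
    nlinarith [Real.pi_lt_d2]
  have h7δ : 7 / n ≤ δ / 2 := by
    rw [div_le_iff₀ hn0]
    nlinarith
  have hdn : 1 / δ = n / t := by
    rw [div_eq_div_iff hδ0.ne' ht0.ne']
    linarith
  -- the derivative of `H`
  have hH' : ∀ τ : ℂ, ‖τ‖ ≤ δ / 2 → ‖deriv H τ‖ ≤ 3 * (n / t) := by
    intro τ hτ
    have hsub : closedBall τ (δ / 3) ⊆ ball 0 δ := by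
      intro z hz
      rw [mem_closedBall, dist_eq_norm] at hz
      rw [mem_ball_zero_iff]
      have h1 : z = (z - τ) + τ := by ring
      calc ‖z‖ = ‖(z - τ) + τ‖ := by rw [← h1]
        _ ≤ ‖z - τ‖ + ‖τ‖ := norm_add_le _ _
        _ < δ := by linarith
    have h1 := Complex.norm_deriv_le_of_forall_mem_sphere_norm_le (c := τ) (R := δ / 3) (C := 1)
      (f := H) (by positivity) (hH.diffContOnCl_ball hsub)
      (fun z hz => hHb z (hsub (sphere_subset_closedBall hz)))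
    calc ‖deriv H τ‖ ≤ 1 / (δ / 3) := h1
      _ = 3 * (1 / δ) := by field_simp
      _ = 3 * (n / t) := by rw [hdn]
  have hI : ∀ η : ℝ, |η| ≤ η1 → ‖(η : ℂ) * I‖ ≤ δ / 2 := by
    intro η hη
    rw [norm_mul, norm_I, mul_one, norm_real, Real.norm_eq_abs]
    linarith
  have hIb : ∀ η : ℝ, |η| ≤ η1 → (η : ℂ) * I ∈ ball (0 : ℂ) δ := by
    intro η hη
    rw [mem_ball_zero_iff]
    have := hI η hη
    linarith
  have hHs : ∀ η : ℝ, |η| ≤ η1 → |(H (η * I)).im| ≤ 21 / t := by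
    intro η hη
    have h1 := Convex.norm_image_sub_le_of_norm_deriv_le (f := H) (C := 3 * (n / t))
      (s := closedBall (0 : ℂ) (δ / 2)) (x := 0) (y := η * I) (fun z hz => by
        refine (hH.differentiableAt (isOpen_ball.mem_nhds ?_))
        rw [mem_closedBall_zero_iff] at hz
        rw [mem_ball_zero_iff]
        linarith) (fun z hz => hH' z (mem_closedBall_zero_iff.1 hz)) (convex_closedBall _ _)
        (mem_closedBall_zero_iff.2 (by rw [norm_zero]; linarith))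
        (mem_closedBall_zero_iff.2 (hI η hη))
    rw [hH0, sub_zero, sub_zero, norm_mul, norm_I, mul_one, norm_real, Real.norm_eq_abs] at h1
    have h2 : 3 * (n / t) * |η| ≤ 3 * (n / t) * (7 / n) :=
      mul_le_mul_of_nonneg_left (hη.trans hη17) (by positivity)
    have h3 : 3 * (n / t) * (7 / n) = 21 / t := by
      field_simp
      norm_num
    exact (abs_im_le_norm _).trans (h1.trans (h2.trans h3.le))
  have hr1 : 1 ≤ r := le_trans (by exact_mod_cast hN11) hr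
  have hζ0 : ζm ≠ 0 := by
    intro h
    rw [h, norm_zero] at hζ
    linarith
  have hexp : ∀ η : ℝ, ‖exp ((η : ℂ) * I)‖ = 1 := fun η => norm_exp_ofReal_mul_I η
  have hz : ∀ η : ℝ, c + 1 / (ζm * exp (η * I)) ∈ ball c s := by
    intro η
    rw [mem_ball, dist_eq_norm, add_sub_cancel_left, norm_div, norm_one, norm_mul, hexp, mul_one,
      hζ]
    have h1 : 1 / r ≤ 1 / (N1 : ℝ) :=
      one_div_le_one_div_of_le (by exact_mod_cast hN11) hr
    linarith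
  have hz0 : c + 1 / ζm ∈ ball c s := by
    have h1 := hz 0
    rwa [ofReal_zero, zero_mul, exp_zero, mul_one] at h1
  have hX0 : b ≤ ‖deriv x (c + 1 / ζm)‖ := (hsb _ hz0).1.1
  have hX00 : deriv x (c + 1 / ζm) ≠ 0 := by
    intro h
    rw [h, norm_zero] at hX0
    linarith
  -- the first quotient
  obtain ⟨q1, hq1⟩ : ∃ q1 : ℝ → ℂ, q1 = fun η : ℝ =>
    deriv x (c + 1 / (ζm * exp ((η : ℂ) * I))) / deriv x (c + 1 / ζm) := ⟨_, rfl⟩
  have hq1b : ∀ η : ℝ, |η| ≤ η1 → ‖q1 η - 1‖ ≤ 7 * ((L : ℝ) / b) / n := by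
    intro η hη
    have h1 : q1 η - 1 = (deriv x (c + 1 / (ζm * exp (η * I))) - deriv x (c + 1 / ζm)) /
        deriv x (c + 1 / ζm) := by
      rw [hq1]
      simp only []
      rw [sub_div, div_self hX00]
    have h2 : ‖deriv x (c + 1 / (ζm * exp (η * I))) - deriv x (c + 1 / ζm)‖ ≤
        L * ‖(c + 1 / (ζm * exp (η * I))) - (c + 1 / ζm)‖ := by
      have h3 := hL.dist_le_mul _ (hsb _ (hz η)).1.2 _ (hsb _ hz0).1.2
      rwa [dist_eq_norm, dist_eq_norm] at h3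
    have h4 : (c + 1 / (ζm * exp (η * I))) - (c + 1 / ζm) = (exp (I * ((-η : ℝ) : ℂ)) - 1) / ζm := by
      have h5 : exp (I * ((-η : ℝ) : ℂ)) = (exp (η * I))⁻¹ := by
        rw [← exp_neg]
        congr 1
        push_cast
        ring
      rw [h5]
      have h6 : exp ((η : ℂ) * I) ≠ 0 := exp_ne_zero _
      field_simp
      ring
    have h5 : ‖(c + 1 / (ζm * exp (η * I))) - (c + 1 / ζm)‖ ≤ |η| := by
      rw [h4, norm_div, hζ]
      have h6 := Real.norm_exp_I_mul_ofReal_sub_one_le (x := -η)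
      rw [norm_neg, Real.norm_eq_abs] at h6
      calc ‖exp (I * ((-η : ℝ) : ℂ)) - 1‖ / r ≤ |η| / r := by gcongr
        _ ≤ |η| / 1 := by
            exact div_le_div_of_nonneg_left (abs_nonneg η) one_pos hr1
        _ = |η| := div_one _
    rw [h1, norm_div, div_le_iff₀ (lt_of_lt_of_le hb0 hX0)]
    calc ‖deriv x (c + 1 / (ζm * exp (η * I))) - deriv x (c + 1 / ζm)‖
        ≤ L * |η| := h2.trans (mul_le_mul_of_nonneg_left h5 L.2)
      _ ≤ L * (7 / n) := mul_le_mul_of_nonneg_left (hη.trans hη17) L.2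
      _ = 7 * ((L : ℝ) / b) / n * b := by field_simp
      _ ≤ 7 * ((L : ℝ) / b) / n * ‖deriv x (c + 1 / ζm)‖ := by gcongr
  -- the second quotient
  have hD0 : n / 2 ≤ ‖(n : ℂ) + deriv H 0‖ := by
    have h1 := hH' 0 (by rw [norm_zero]; linarith)
    have h2 : ‖(n : ℂ)‖ ≤ ‖(n : ℂ) + deriv H 0‖ + ‖deriv H 0‖ := by
      have h3 : (n : ℂ) = ((n : ℂ) + deriv H 0) - deriv H 0 := by ring
      calc ‖(n : ℂ)‖ = ‖((n : ℂ) + deriv H 0) - deriv H 0‖ := by rw [← h3]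
        _ ≤ _ := norm_sub_le _ _
    rw [norm_real, Real.norm_of_nonneg hn0.le] at h2
    have h3 : 3 * (n / t) ≤ n / 2 := by
      rw [mul_div_assoc', div_le_iff₀ ht0]
      nlinarith
    linarith
  have hD00 : (n : ℂ) + deriv H 0 ≠ 0 := by
    intro h
    rw [h, norm_zero] at hD0
    linarith
  obtain ⟨q2, hq2⟩ : ∃ q2 : ℝ → ℂ, q2 = fun η : ℝ =>
    ((n : ℂ) + deriv H ((η : ℂ) * I)) / ((n : ℂ) + deriv H 0) := ⟨_, rfl⟩
  have hq2b : ∀ η : ℝ, |η| ≤ η1 → ‖q2 η - 1‖ ≤ 12 / t := by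
    intro η hη
    have h1 : q2 η - 1 = (deriv H (η * I) - deriv H 0) / ((n : ℂ) + deriv H 0) := by
      rw [hq2]
      simp only []
      rw [eq_div_iff hD00, sub_mul, div_mul_cancel₀ _ hD00]
      ring
    rw [h1, norm_div, div_le_iff₀ (by linarith)]
    have h2 := hH' (η * I) (hI η hη)
    have h3 := hH' 0 (by rw [norm_zero]; linarith)
    calc ‖deriv H (η * I) - deriv H 0‖ ≤ ‖deriv H (η * I)‖ + ‖deriv H 0‖ := norm_sub_le _ _
      _ ≤ 6 * (n / t) := by linarith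
      _ = 12 / t * (n / 2) := by ring
      _ ≤ 12 / t * ‖(n : ℂ) + deriv H 0‖ := by gcongr
  have h12 : 12 / t ≤ 1 / 2 := by
    rw [div_le_iff₀ ht0]
    linarith
  -- the value at `0`
  obtain ⟨g0, hg0⟩ : ∃ g0 : ℂ, g0 = -(a * deriv x (c + 1 / ζm) * f ζm * (n + deriv H 0) / ζm) :=
    ⟨_, rfl⟩
  have hg00 : g0 ≠ 0 := by
    rw [hg0]
    refine neg_ne_zero.2 (div_ne_zero (mul_ne_zero (mul_ne_zero (mul_ne_zero ?_ hX00) hf0) hD00)
      hζ0)
    exact_mod_cast ha.ne'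
  -- the phase
  obtain ⟨Θ, hΘ⟩ : ∃ Θ : ℝ → ℝ, Θ = fun η => arg g0 + (n - 1) * η + (log (q1 η)).im +
    (log (q2 η)).im + (H (η * I)).im := ⟨_, rfl⟩
  have hIcc : ∀ η ∈ Icc (-η1) η1, |η| ≤ η1 := fun η hη => abs_le.2 hη
  have hcI : Continuous (fun η : ℝ => (η : ℂ) * I) := by fun_prop
  have hcont : ContinuousOn Θ (Icc (-η1) η1) := by
    rw [hΘ]
    have c1 : ContinuousOn (fun η : ℝ => H (η * I)) (Icc (-η1) η1) :=
      hH.continuousOn.comp hcI.continuousOn fun η hη => hIb η (hIcc η hη)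
    have c2 : ContinuousOn q1 (Icc (-η1) η1) := by
      rw [hq1]
      refine ContinuousOn.div_const ?_ _
      refine hdx.continuousOn.comp ?_ fun η _ => (hsb _ (hz η)).2
      refine (Continuous.continuousOn ?_)
      refine continuous_const.add (continuous_const.div (continuous_const.mul hcI.cexp) ?_)
      intro η
      exact mul_ne_zero hζ0 (exp_ne_zero _)
    have c3 : ContinuousOn q2 (Icc (-η1) η1) := by
      rw [hq2]
      refine ContinuousOn.div_const (continuousOn_const.add ?_) _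
      exact (hH.deriv isOpen_ball).continuousOn.comp hcI.continuousOn fun η hη =>
        hIb η (hIcc η hη)
    have c4 := c2.clog fun η hη => (log_bd (hq1b η (hIcc η hη)) k2).1
    have c5 := c3.clog fun η hη => (log_bd (hq2b η (hIcc η hη)) h12).1
    refine ContinuousOn.add (ContinuousOn.add (ContinuousOn.add ?_ ?_) ?_) ?_
    · exact (continuous_const.add (continuous_const.mul continuous_id)).continuousOn
    · exact continuous_im.comp_continuousOn c4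
    · exact continuous_im.comp_continuousOn c5
    · exact continuous_im.comp_continuousOn c1
  -- the values at the ends
  have herr : ∀ η : ℝ, |η| ≤ η1 → |(log (q1 η)).im + (log (q2 η)).im + (H (η * I)).im| ≤
      (21 / 2 * ((L : ℝ) / b) + 39) / t := by
    intro η hη
    have e1 := (log_bd (hq1b η hη) k2).2
    have e2 := (log_bd (hq2b η hη) h12).2
    have e3 := hHs η hη
    have e4 := abs_add_le ((log (q1 η)).im + (log (q2 η)).im) (H (η * I)).im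
    have e5 := abs_add_le (log (q1 η)).im (log (q2 η)).im
    have e6 : 7 * ((L : ℝ) / b) / n ≤ 7 * ((L : ℝ) / b) / t :=
      div_le_div_of_nonneg_left (by positivity) ht0 p3
    have e7 : (21 / 2 * ((L : ℝ) / b) + 39) / t = 3 / 2 * (7 * ((L : ℝ) / b) / t) +
        3 / 2 * (12 / t) + 21 / t := by
      field_simp
      ring
    rw [e7]
    linarith
  have hnum := numer (C3 := 21 / 2 * ((L : ℝ) / b) + 39) hn ht0 p3 hv0 p4 hu0 p2 k3
  rw [← hη1] at hnum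
  have harg1 := neg_pi_lt_arg g0
  have harg2 := arg_le_pi g0
  have hend1 : Θ (-η1) ≤ 0 := by
    have e1 := abs_le.1 (herr (-η1) (by rw [abs_neg, abs_of_nonneg hη10]))
    rw [hΘ]
    simp only []
    linarith [e1.2]
  have hend2 : 0 ≤ Θ η1 := by
    have e1 := abs_le.1 (herr η1 (by rw [abs_of_nonneg hη10]))
    rw [hΘ]
    simp only []
    linarith [e1.1]
  obtain ⟨η, hη, hη0⟩ := intermediate_value_Icc (by linarith : -η1 ≤ η1) hcont ⟨hend1, hend2⟩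
  have hηa := hIcc η hη
  have hq10 : q1 η ≠ 0 := slitPlane_ne_zero (log_bd (hq1b η hηa) k2).1
  have hq20 : q2 η ≠ 0 := slitPlane_ne_zero (log_bd (hq2b η hηa) h12).1
  obtain ⟨E, hE⟩ : ∃ E : ℂ, E = arg g0 * I + log (q1 η) + log (q2 η) +
    (((n - 1) * η : ℝ) : ℂ) * I + H (η * I) := ⟨_, rfl⟩
  have hEim : E.im = 0 := by
    rw [hE]
    rw [hΘ] at hη0
    simp only [add_im, mul_im, ofReal_re, ofReal_im, I_re, I_im, mul_zero, mul_one,
      add_zero] at hη0 ⊢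
    linarith
  have hEre : (E.re : ℂ) = E := by
    apply Complex.ext
    · rfl
    · rw [ofReal_im, hEim]
  have hfin : -(a * deriv x (c + 1 / (ζm * exp (η * I))) * f (ζm * exp (η * I)) *
      (n + deriv H (η * I)) / (ζm * exp (η * I))) = ‖g0‖ * exp E := by
    have e1 : ‖g0‖ * exp E = g0 * q1 η * q2 η * exp ((((n - 1) * η : ℝ) : ℂ) * I + H (η * I)) := by
      rw [hE, add_assoc (_ + _ + _), exp_add, exp_add, exp_add, exp_log hq10, exp_log hq20]
      have := norm_mul_exp_arg_mul_I g0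
      calc (‖g0‖ : ℂ) * (exp (arg g0 * I) * q1 η * q2 η *
            exp ((((n - 1) * η : ℝ) : ℂ) * I + H (η * I)))
          = (‖g0‖ * exp (arg g0 * I)) * q1 η * q2 η *
            exp ((((n - 1) * η : ℝ) : ℂ) * I + H (η * I)) := by ring
        _ = _ := by rw [this]
    have e2 : f (ζm * exp (η * I)) = f ζm * (exp ((((n - 1) * η : ℝ) : ℂ) * I + H (η * I)) *
        exp (η * I)) := by
      rw [hfe _ (hIb η hηa), ← exp_add]
      congr 2
      have : (N : ℂ) = (n : ℂ) := by rw [hnN]; push_cast; rfl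
      rw [this]
      push_cast
      ring
    rw [e1, e2, hq1, hq2, hg0]
    exact alg hX00 hD00 (exp_ne_zero _) hζ0
  refine ⟨η, √(‖g0‖ * Real.exp E.re), hηa, ?_, ?_⟩
  · exact Real.sqrt_pos.2 (mul_pos (norm_pos_iff.2 hg00) (Real.exp_pos _))
  · have e1 : ((√(‖g0‖ * Real.exp E.re) : ℝ) : ℂ) ^ 2 = ((‖g0‖ * Real.exp E.re : ℝ) : ℂ) := by
      rw [← ofReal_pow, Real.sq_sqrt (by positivity)]
    have e2 : ((N : ℕ) : ℂ) = (n : ℂ) := by rw [hnN]; push_cast; rfl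
    rw [e1, ofReal_mul, ofReal_exp, hEre, ← hfin, ← e2]

end Pool.Agent.Y287.ES
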